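import Pool.Agent.Helper44x.DM.Fam

/-!
MP_b525bf_ag: resolution of the quotients `(X × G) / V`, where `X` is an affine variety, `G` is a
connected linear algebraic group, and `V` is a finite group of morphisms from `X` to `G`, which acts
on `X × G` by `(x, y) ↦ (x, v x * y)`. For example, `G` is the group of vectors and `V` is a finite
group of vectors of functions on `X`; or `G` is the general linear group and `V` is a finite group
with a family of faithful representations parametrized by `X`.

There are no hypotheses on the group `V` (which may be wild) and on its fixed points. What is used of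
`X` is that the ideal generated by the determinants `det (c h (g x))` of size `|V|` becomes principal
on a smooth modification of `X`. This holds (with the log resolution of surfaces and toric blowups of
the starting library) if `X` is a surface, if `X` has an action of a torus of complexity two and `V`
is equivariant in a weak sense, and also if `X` is an affine space with a linear action of a
torus of complexity at most two.

The proof.

(1) (`Pool.Agent.Helper44x.DM.smooth_of_form`) Let `T` be a smooth algebra with fraction field `L`,
`K` a subfield of `L`, `S = T ∩ K`, `T` integral over `S`, and `D` an alternating `K`-multilinear form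
on `L` with `[L : K]` arguments, such that the values of `D` on `T` generate an ideal `δ * T`. Then `T`
is flat over `S` and `S` is smooth.

(2) Let `V` act on `X × Y` over `X`, where `Y` is smooth, such that the ideal `I` of the functions
`x ↦ det (c h (g (x, y)))` on `X` is the same for all points `y` of `Y`. After a smooth modification
`X'` of `X` on which `I` becomes principal the determinants `det (g (b h))` of functions on `X' × Y` are
a form as in (1) for the invariants of `V` (`smooth_chart`). So `(X' × Y) / V` is smooth, and it is a
resolution of `(X × Y) / V` (`main_thm`).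

(3) The action of `V` on `X × G` commutes with the translations of `G` from the right, so (2) applies
(`deg_thH`).
-/

set_option autoImplicit false

open TensorProduct AlgebraicGeometry CategoryTheory Pool.Agent.H920R2

namespace Pool.Agent.Results.MP_b525bf_ag.FiniteGroupsOfPoints

section base

variable {k A : Type} [Field k] [CommRing A] [IsDomain A] [Algebra k A]

/-- The ring of functions on the `i`-th chart of the blowup of the ideal `(H 0, ..., H N)`. -/
def chart (k : Type) [Field k] [Algebra k A] {N : ℕ} (H : Fin (N + 1) → A)
    (i : Fin (N + 1)) : Subalgebra k (FractionRing A) :=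
  Algebra.adjoin k (Set.range (algebraMap A (FractionRing A)) ∪
    Set.range fun j => algebraMap A (FractionRing A) (H j) / algebraMap A (FractionRing A) (H i))

/-- There is a smooth blowup of `Spec A` such that on each of its charts the ideal `I` is generated by
one of its elements. -/
def BecomesPrincipal (k : Type) [Field k] [Algebra k A] (I : Ideal A) : Prop :=
  ∃ (N : ℕ) (H : Fin (N + 1) → A), (∀ i, H i ≠ 0) ∧ ∀ i, Algebra.Smooth k (chart k H i) ∧
    ∃ d ∈ I, d ≠ 0 ∧ ∀ a ∈ I,
      algebraMap A (FractionRing A) a / algebraMap A (FractionRing A) d ∈ chart k H i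

/-- The field `E` is the function field of the smooth projective surface with the homogeneous
coordinates `H 0, ..., H N`. -/
def IsSurfaceField (k E : Type) [Field k] [Field E] [Algebra k E] : Prop :=
  Algebra.trdeg k E = 2 ∧ ∃ (N : ℕ) (H : Fin (N + 1) → E), (∀ i, H i ≠ 0) ∧
    ∀ i, Algebra.Smooth k (Algebra.adjoin k (Set.range fun j => H j / H i)) ∧
      ∀ x : E, ∃ a ∈ Algebra.adjoin k (Set.range fun j => H j / H i),
        ∃ b ∈ Algebra.adjoin k (Set.range fun j => H j / H i), b ≠ 0 ∧ x = a * b⁻¹

/-- Let the torus of rank `r` act on `X = Spec A` by the given grading. Either the field of the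
homogeneous fractions of degree zero is the function field of a smooth projective surface (for
`r = 0` this means that `X` is a surface with a smooth projective model), or `A` is a polynomial ring
in `n` homogeneous variables whose degrees generate a group of rank at least `n - 2`. -/
def HasSmallComplexity {r : ℕ} (𝒜 : (Fin r → ℤ) → Submodule k A) : Prop :=
  (∃ E : IntermediateField k (FractionRing A), IsSurfaceField k E ∧
    ∀ x, x ∈ E ↔ ∃ d, ∃ a ∈ 𝒜 d, ∃ b ∈ 𝒜 d, b ≠ 0 ∧
      x = algebraMap A (FractionRing A) a / algebraMap A (FractionRing A) b) ∨
  ∃ (n : ℕ) (x : Fin n → A) (d : Fin n → (Fin r → ℤ)), AlgebraicIndependent k x ∧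
    Algebra.adjoin k (Set.range x) = ⊤ ∧ (∀ i, x i ∈ 𝒜 (d i)) ∧
    n ≤ Module.finrank ℤ (Submodule.span ℤ (Set.range d)) + 2

end base

section points

variable {k A C V : Type} [Field k] [CommRing A] [Algebra k A] [CommRing C] [HopfAlgebra k C]

/-- The map `g ↦ f g` is an injective homomorphism from `V` to the group of the morphisms from
`X = Spec A` to the algebraic group `G = Spec C`. -/
structure IsGroupOfPoints [Group V] (f : V → (C →ₐ[k] A)) : Prop where
  injective : Function.Injective f
  map_one : ∀ c, f 1 c = algebraMap k A (Coalgebra.counit c)
  map_mul : ∀ g h c, f (g * h) c =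
    Algebra.TensorProduct.lift (f g) (f h) (fun _ _ => Commute.all _ _) (Coalgebra.comul c)

/-- The ideal generated by the functions `x ↦ det (c h (f g x))`, with rows and columns indexed by the
elements `h` and `g` of `V`, for all families of functions `c h` on `G`. -/
def minors [Fintype V] [DecidableEq V] (f : V → (C →ₐ[k] A)) : Ideal A :=
  Ideal.span {d | ∃ c : V → C, d = (Matrix.of fun h g => f g (c h)).det}

/-- The ring of functions on `G` is generated by functions `c` such that the functions
`x ↦ c (f g x)`, for all `g` in `V`, are homogeneous of the same degree. -/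
def IsHomogeneousFamily {r : ℕ} (𝒜 : (Fin r → ℤ) → Submodule k A) (f : V → (C →ₐ[k] A)) : Prop :=
  Algebra.adjoin k {c : C | ∃ d, ∀ g, f g c ∈ 𝒜 d} = ⊤

/-- The translation `(x, y) ↦ (x, f x * y)` of `X × G` by the morphism `f` from `X` to `G`, on the
level of functions: `a ⊗ c ↦ ∑ a * f (c₁) ⊗ c₂`. -/
noncomputable def translate (f : C →ₐ[k] A) : A ⊗[k] C →ₐ[k] A ⊗[k] C :=
  Algebra.TensorProduct.lift Algebra.TensorProduct.includeLeft
    ((Algebra.TensorProduct.map f (AlgHom.id k C)).comp (Bialgebra.comulAlgHom k C))
    (fun _ _ => Commute.all _ _)

/-- The functions on `X × G` which are invariant under the translations by the morphisms `f g`. -/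
noncomputable def invariants (f : V → (C →ₐ[k] A)) : Subalgebra k (A ⊗[k] C) :=
  ⨅ g, AlgHom.equalizer (translate (f g)) (AlgHom.id k (A ⊗[k] C))

/-- The quotient of `X × G` by the translations by the morphisms `f g`. -/
noncomputable def quot (f : V → (C →ₐ[k] A)) : Scheme.{0} :=
  Spec (CommRingCat.of (invariants f))

/-- The structure morphism of the quotient. -/
noncomputable def quotStr (f : V → (C →ₐ[k] A)) : quot f ⟶ Spec (CommRingCat.of k) :=
  Spec.map (CommRingCat.ofHom (algebraMap k (invariants f)))

end points

section proof

open Pool.Agent.Helper44x.DM Pool.Agent.W558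

variable {k A C V : Type} [Field k] [CommRing A] [Algebra k A] [CommRing C] [HopfAlgebra k C]
  [Group V]

/-- The homomorphism to the group of points. -/
noncomputable def toHom {f : V → (C →ₐ[k] A)} (hf : IsGroupOfPoints f) :
    V →* WithConv (C →ₐ[k] A) where
  toFun g := WithConv.toConv (f g)
  map_one' := WithConv.ofConv_injective (AlgHom.ext fun c => hf.map_one c)
  map_mul' g h := WithConv.ofConv_injective (AlgHom.ext fun c =>
    (hf.map_mul g h c).trans
      (AlgHom.convMul_apply (WithConv.toConv (f g)) (WithConv.toConv (f h)) c).symm)

theorem invariants_eq {f : V → (C →ₐ[k] A)} (hf : IsGroupOfPoints f) :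
    invariants f = ivH (toHom hf) := by
  have h1 : ∀ (f : C →ₐ[k] A) (z : A ⊗[k] C), translate f z = lam f z := by
    intro f z
    have h2 : translate f = (lam f).restrictScalars k := by
      apply Algebra.TensorProduct.ext
      · ext a
        change translate f (a ⊗ₜ 1) = lam f (a ⊗ₜ 1)
        rw [translate, Algebra.TensorProduct.lift_tmul, lam_tmul, tr, map_one]
        rfl
      · ext c
        change translate f (1 ⊗ₜ c) = lam f (1 ⊗ₜ c)
        rw [translate, Algebra.TensorProduct.lift_tmul, lam_tmul, tr, map_one,
          ← Algebra.TensorProduct.one_def]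
    exact DFunLike.congr_fun h2 z
  ext z
  rw [invariants, Algebra.mem_iInf]
  constructor
  · intro h g
    have h2 := h g
    rw [AlgHom.mem_equalizer, h1] at h2
    exact h2
  · intro h g
    rw [AlgHom.mem_equalizer, h1]
    exact h g

variable [IsDomain A]

theorem hasPR_of [PerfectField k] [Algebra.FiniteType k A] [Fintype V] [DecidableEq V]
    (f : V → (C →ₐ[k] A))
    (h : BecomesPrincipal k (minors f) ∨
      ∃ (r : ℕ) (𝒜 : (Fin r → ℤ) → Submodule k A) (_ : GradedAlgebra 𝒜),
        HasSmallComplexity 𝒜 ∧ IsHomogeneousFamily 𝒜 f) (hI : minors f ≠ ⊥) :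
    HasPR k A (minors f) := by
  rcases h with ⟨N, H, h1, h2⟩ | ⟨r, 𝒜, _, h1, h2⟩
  · exact hasPR_bl H h1 (fun i => (h2 i).1) _ (fun i => (h2 i).2)
  · obtain ⟨S, hS, hIS⟩ := det_hom f 𝒜 h2
    rcases h1 with ⟨E, ⟨h3, N, H, h4, h5⟩, h6⟩ | ⟨n, x, d, h3, h4, h5, h6⟩
    · have h7 : E = homFrac 𝒜 := by
        apply IntermediateField.ext
        intro x
        exact h6 x
      subst h7
      exact hasPR_graded 𝒜 h3 ⟨N, H, h4, fun i => ⟨(h5 i).1, (h5 i).2⟩⟩ _ hI S hS hIS
    · exact hasPR_poly 𝒜 x d h3 h4 h5 h6 _ hI S hS hIS

end proof

/-- **Resolution of quotients by finite groups of points of algebraic groups.** Let `k` be an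
algebraically closed field, `X = Spec A` an affine variety, `G = Spec C` a connected linear algebraic
group over `k`, and `V` a finite group of morphisms from `X` to `G`. Suppose that one of the
following conditions holds.

(a) The ideal of `A` generated by the functions `x ↦ det (c h (g x))`, where the `c h` for `h ∈ V` are
functions on `G`, becomes principal on a smooth blowup of `X`.

(b) There is an action of a torus on `X` such that the field of rational invariants is the function
field of a smooth projective surface (for example, the torus is trivial and `X` is a surface), or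
`X` is an affine space with a linear action of a torus of complexity at most two (for example, `X`
is the affine plane); and the ring of functions on `G` is generated by functions `c` such
that all functions `c (g x)` for `g ∈ V` are homogeneous of the same degree.

Then the quotient of `X × G` by the action `(x, y) ↦ (x, g x * y)` of `V` is a variety which has a
resolution of singularities. -/
theorem result (k : Type) [Field k] [IsAlgClosed k] (A : Type) [CommRing A] [IsDomain A]
    [Algebra k A] [Algebra.FiniteType k A] (C : Type) [CommRing C] [IsDomain C] [HopfAlgebra k C]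
    [Algebra.Smooth k C] (V : Type) [Group V] [Fintype V] [DecidableEq V] (f : V → (C →ₐ[k] A))
    (hf : IsGroupOfPoints f)
    (hX : BecomesPrincipal k (minors f) ∨
      ∃ (r : ℕ) (𝒜 : (Fin r → ℤ) → Submodule k A) (_ : GradedAlgebra 𝒜),
        HasSmallComplexity 𝒜 ∧ IsHomogeneousFamily 𝒜 f) :
    IsVariety (quotStr f) ∧
    ∃ (Y : Scheme.{0}) (π : Y ⟶ quot f),
      AlgebraicGeometry.IsIntegral Y ∧ AlgebraicGeometry.IsProper π ∧
      AlgebraicGeometry.Smooth (π ≫ quotStr f) ∧
      ∃ U : (quot f).Opens, Dense (U : Set (quot f)) ∧ IsIso (π ∣_ U) := by
  have h1 := Pool.Agent.Helper44x.DM.main_hopf (toHom hf)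
    (fun g h hgh => hf.injective (congrArg WithConv.ofConv hgh)) (hasPR_of f hX)
  rw [← invariants_eq] at h1
  exact h1

end Pool.Agent.Results.MP_b525bf_ag.FiniteGroupsOfPoints
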