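import Pool.Agent.Helper44x.SF.Main

/-!
MP_b525bf_ag: resolution of the quotients of smooth families `Y → X` of affine varieties of
characteristic `p` by foliations along the fibres whose degeneracy ideal comes from `X`.

Let `Y = Spec B` be smooth over an affine variety `X = Spec A` (which may be singular), and let `M`
be a `B`-module of derivations of `B` over `A` which is generically closed under Lie brackets and
`p`-th powers, of rank `r`. There are no hypotheses on the singularities of the foliation `M`, except
that the ideal of its minors `det (D i (b j))`, with `D i ∈ M` and `b j ∈ B`, is generated by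
functions on `X`. For example, `Y = X × 𝔸ᵐ` and `M` is generated by the vector fields
`∑ j, v i j (x) ∂/∂y j`, or `Y = X × G` for an algebraic group `G` and `M` is generated by invariant
vector fields of `G` with coefficients in `A`. The ideal of `A` has to be principal on a smooth
modification of `X`, and this holds (with the log resolution of surfaces and toric blowups of
the starting library) for all ideals if `X` is a surface, and for homogeneous ideals if `X` has an
action of a torus of complexity two, or is an affine space with a linear action of a torus of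
complexity at most two.

The proof. Let `X'` be the modification of `X`. On the charts of `Y' = Y ×_X X'` the ideal of the
minors is generated by one element `d`. Near a given point there are `D i ∈ M` and `b j ∈ B` such that
`det (D i (b j)) = d * unit`. By Cramer's rule, the adapted basis `E i` of the foliation, with
`E i (b j) = δ i j`, consists of regular vector fields, although the `D i` are linearly dependent at
the points where `d` vanishes. The `E i` commute and have `p`-th power zero, so the ring of constants
is smooth near the point (`Pool.Agent.Helper44x.SF.smooth_fol`). Hence the quotient of `Y'` by the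
foliation is smooth, and it is a resolution of the quotient of `Y` (`Pool.Agent.Helper44x.SF.main_fol`).
-/

set_option autoImplicit false

open AlgebraicGeometry CategoryTheory Pool.Agent.H920R2

namespace Pool.Agent.Results.MP_b525bf_ag.FoliationsOnFamilies

section base

variable {k A : Type} [Field k] [CommRing A] [IsDomain A] [Algebra k A]

/-- The ring of functions on the `i`-th chart of the blowup of the ideal `(H 0, ..., H N)`. -/
def chart (k : Type) [Field k] [Algebra k A] {N : ℕ} (H : Fin (N + 1) → A)
    (i : Fin (N + 1)) : Subalgebra k (FractionRing A) :=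
  Algebra.adjoin k (Set.range (algebraMap A (FractionRing A)) ∪
    Set.range fun j => algebraMap A (FractionRing A) (H j) / algebraMap A (FractionRing A) (H i))

/-- There is a smooth blowup of `Spec A` such that on each of its charts the ideal `I` is generated by
one of its elements. -/
def BecomesPrincipal (k : Type) [Field k] [Algebra k A] (I : Ideal A) : Prop :=
  ∃ (N : ℕ) (H : Fin (N + 1) → A), (∀ i, H i ≠ 0) ∧ ∀ i, Algebra.Smooth k (chart k H i) ∧
    ∃ d ∈ I, d ≠ 0 ∧ ∀ a ∈ I,
      algebraMap A (FractionRing A) a / algebraMap A (FractionRing A) d ∈ chart k H i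

/-- The field `E` is the function field of the smooth projective surface with the homogeneous
coordinates `H 0, ..., H N`. -/
def IsSurfaceField (k E : Type) [Field k] [Field E] [Algebra k E] : Prop :=
  Algebra.trdeg k E = 2 ∧ ∃ (N : ℕ) (H : Fin (N + 1) → E), (∀ i, H i ≠ 0) ∧
    ∀ i, Algebra.Smooth k (Algebra.adjoin k (Set.range fun j => H j / H i)) ∧
      ∀ x : E, ∃ a ∈ Algebra.adjoin k (Set.range fun j => H j / H i),
        ∃ b ∈ Algebra.adjoin k (Set.range fun j => H j / H i), b ≠ 0 ∧ x = a * b⁻¹

/-- Let the torus of rank `n` act on `X = Spec A` by the given grading. Either the field of the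
homogeneous fractions of degree zero is the function field of a smooth projective surface (for
`n = 0` this means that `X` is a surface with a smooth projective model), or `A` is a polynomial ring
in `m` homogeneous variables whose degrees generate a group of rank at least `m - 2`. -/
def HasSmallComplexity {n : ℕ} (𝒜 : (Fin n → ℤ) → Submodule k A) : Prop :=
  (∃ E : IntermediateField k (FractionRing A), IsSurfaceField k E ∧
    ∀ x, x ∈ E ↔ ∃ d, ∃ a ∈ 𝒜 d, ∃ b ∈ 𝒜 d, b ≠ 0 ∧
      x = algebraMap A (FractionRing A) a / algebraMap A (FractionRing A) b) ∨
  ∃ (m : ℕ) (x : Fin m → A) (d : Fin m → (Fin n → ℤ)), AlgebraicIndependent k x ∧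
    Algebra.adjoin k (Set.range x) = ⊤ ∧ (∀ i, x i ∈ 𝒜 (d i)) ∧
    m ≤ Module.finrank ℤ (Submodule.span ℤ (Set.range d)) + 2

end base

section foliation

variable {A B : Type} [CommRing A] [CommRing B] [Algebra A B]

/-- The module `M` of vector fields of `Spec B` over `Spec A` is a foliation: it is generically closed
under Lie brackets and `p`-th powers. -/
structure IsFoliation (p : ℕ) (M : Submodule B (Derivation A B B)) : Prop where
  bracket : ∀ X ∈ M, ∀ Y ∈ M, ∃ b : B, b ≠ 0 ∧ b • ⁅X, Y⁆ ∈ M
  power : ∀ X ∈ M, ∃ b : B, b ≠ 0 ∧ ∃ Y ∈ M, ∀ x, b * X^[p] x = Y x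

/-- The ideal which is generated by the minors `det (X i (b j))` of size `r`, with `X i ∈ M` and
`b j ∈ B`. If `r` is the rank of `M`, then its zeros are the points where the vector fields in `M`
span a space of dimension less than `r`. -/
def minors (M : Submodule B (Derivation A B B)) (r : ℕ) : Ideal B :=
  Ideal.span {y | ∃ (X : Fin r → Derivation A B B) (b : Fin r → B), (∀ i, X i ∈ M) ∧
    y = (Matrix.of fun i j => X i (b j)).det}

end foliation

section proof

open Pool.Agent.Helper44x.DM Pool.Agent.W558

variable {k A : Type} [Field k] [CommRing A] [IsDomain A] [Algebra k A]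

theorem hasPR_of [PerfectField k] [Algebra.FiniteType k A] (I : Ideal A) (hI : I ≠ ⊥)
    (h : BecomesPrincipal k I ∨
      ∃ (n : ℕ) (𝒜 : (Fin n → ℤ) → Submodule k A) (_ : GradedAlgebra 𝒜),
        HasSmallComplexity 𝒜 ∧ I.IsHomogeneous 𝒜) :
    HasPR k A I := by
  rcases h with ⟨N, H, h1, h2⟩ | ⟨r, 𝒜, _, h1, h2⟩
  · exact hasPR_bl H h1 (fun i => (h2 i).1) _ (fun i => (h2 i).2)
  · have hS : ∀ s ∈ {a | a ∈ I ∧ ∃ e, a ∈ 𝒜 e}, ∃ e, s ∈ 𝒜 e := fun s hs => hs.2
    have hIS : I = Ideal.span {a | a ∈ I ∧ ∃ e, a ∈ 𝒜 e} := by
      classical
      apply le_antisymm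
      · intro a ha
        rw [← DirectSum.sum_support_decompose 𝒜 a]
        exact Ideal.sum_mem _ fun e _ => Ideal.subset_span ⟨h2 e ha, e, SetLike.coe_mem _⟩
      · rw [Ideal.span_le]
        exact fun a ha => ha.1
    rcases h1 with ⟨E, ⟨h3, N, H, h4, h5⟩, h6⟩ | ⟨n, x, d, h3, h4, h5, h6⟩
    · have h7 : E = homFrac 𝒜 := by
        apply IntermediateField.ext
        intro x
        exact h6 x
      subst h7
      exact hasPR_graded 𝒜 h3 ⟨N, H, h4, fun i => ⟨(h5 i).1, (h5 i).2⟩⟩ _ hI _ hS hIS
    · exact hasPR_poly 𝒜 x d h3 h4 h5 h6 _ hI _ hS hIS

end proof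

/-- **Resolution of quotients by foliations on smooth families.** Let `k` be a perfect field of
characteristic `p`, `X = Spec A` an affine variety over `k`, and `Y = Spec B` an affine variety which
is smooth over `X`. Let `M` be a `B`-module of vector fields of `Y` over `X` which is a foliation of
rank `r`, such that the ideal of `B` generated by the minors of size `r` of `M` is generated by an
ideal `I ≠ 0` of `A`. Suppose that one of the following conditions holds.

(a) The ideal `I` becomes principal on a smooth blowup of `X`.

(b) There is an action of a torus on `X` such that the ideal `I` is homogeneous, and such that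
either the field of rational invariants is the function field of a smooth projective surface (for
example, the torus is trivial and `X` is a surface), or `X` is an affine space with a linear
action of a torus of complexity at most two (for example, `X` is the affine plane).

Then the quotient of `Y` by the foliation `M`, that is, the spectrum of the ring `R` of the functions
on `Y` which are annihilated by `M`, is a variety which has a resolution of singularities. -/
theorem result (p : ℕ) [Fact p.Prime] (k : Type) [Field k] [CharP k p] [PerfectField k] (A : Type)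
    [CommRing A] [IsDomain A] [Algebra k A] [Algebra.FiniteType k A] (B : Type) [CommRing B]
    [IsDomain B] [Algebra k B] [Algebra A B] [IsScalarTower k A B] [Algebra.Smooth A B]
    (M : Submodule B (Derivation A B B)) (hM : IsFoliation p M) (r : ℕ)
    (hr : minors M (r + 1) = ⊥) (I : Ideal A) (hI : I ≠ ⊥)
    (hMI : minors M r = I.map (algebraMap A B))
    (hX : BecomesPrincipal k I ∨
      ∃ (n : ℕ) (𝒜 : (Fin n → ℤ) → Submodule k A) (_ : GradedAlgebra 𝒜),
        HasSmallComplexity 𝒜 ∧ I.IsHomogeneous 𝒜)
    (R : Subalgebra k B) (hR : ∀ b, b ∈ R ↔ ∀ X ∈ M, X b = 0) :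
    IsVariety (X := Spec (CommRingCat.of R)) (Spec.map (CommRingCat.ofHom (algebraMap k R))) ∧
    ∃ (Z : Scheme.{0}) (π : Z ⟶ Spec (CommRingCat.of R)),
      AlgebraicGeometry.IsIntegral Z ∧ AlgebraicGeometry.IsProper π ∧
      AlgebraicGeometry.Smooth (π ≫ Spec.map (CommRingCat.ofHom (algebraMap k R))) ∧
      ∃ U : (Spec (CommRingCat.of R)).Opens, Dense (U : Set (Spec (CommRingCat.of R))) ∧
        IsIso (π ∣_ U) := by
  have hp : p.Prime := Fact.out
  have hpk : (p : k) = 0 := CharP.cast_eq_zero k p
  exact Pool.Agent.Helper44x.SF.main_fol hp hpk M ⟨hM.bracket, hM.power⟩ hr I hMI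
    (hasPR_of I hI hX) R hR

end Pool.Agent.Results.MP_b525bf_ag.FoliationsOnFamilies
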