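import Pool.Agent.Helper44x.FR.Main

/-!
MP_b525bf_ag: resolution of the quotients of (possibly singular) affine varieties of
characteristic `p` by foliations of arbitrary rank (and by finite diagonalizable group schemes)
whose leading forms are linearly independent outside the vertex of a smooth weighted blowup.

The foliation is not supposed to be a tower of foliations of rank one: there need not be a
subfoliation which is compatible with the weighted blowup. Proof: the functions
`det (D i (b j)) ^ p`, for homogeneous elements `b j` of the extended Rees algebra, are constants of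
the foliation, and outside the vertex at least one of them does not vanish. Where it does not
vanish, there is an adapted basis `E i` of the foliation, `E i (b j) = δ_ij`; the `E i` commute
and have `p`-th power zero (an element of the foliation which annihilates all `b j` is zero) and
so the ring of constants is smooth (`Pool.Agent.Helper44x.FR.smooth_good`). The smooth charts cover
the complement of the vertex of the extended Rees algebra of the ring of constants
(`Pool.Agent.Helper44x.FR.good_kers`).
-/

set_option autoImplicit false

open AlgebraicGeometry CategoryTheory Pool.Agent.H920R2 Pool.Agent.H519R3.RS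

universe u

namespace Pool.Agent.Results.MP_b525bf_ag.HigherRankFoliations

section

variable {k B : Type u} [Field k] [CommRing B] [IsDomain B] [Algebra k B]

/-- The derivations `D i` of `B` span a foliation: the vector space over the fraction field of `B`
which is spanned by their extensions `D' i` to the fraction field is closed under Lie brackets and
`p`-th powers. -/
def SpanFoliation (p : ℕ) {r : ℕ} (D : Fin r → Derivation k B B) : Prop :=
  ∃ D' : Fin r → Derivation k (FractionRing B) (FractionRing B),
    (∀ i b, D' i (algebraMap B (FractionRing B) b) = algebraMap B (FractionRing B) (D i b)) ∧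
    (∀ X ∈ Submodule.span (FractionRing B) (Set.range D'),
      ∀ Y ∈ Submodule.span (FractionRing B) (Set.range D'),
        ⁅X, Y⁆ ∈ Submodule.span (FractionRing B) (Set.range D')) ∧
    ∀ X ∈ Submodule.span (FractionRing B) (Set.range D'),
      ∃ Y ∈ Submodule.span (FractionRing B) (Set.range D'), ∀ x, X^[p] x = Y x

/-- The elements which are, up to higher order, combinations of the leading forms of the
determinants `det (D i (b j))`: the ideal generated by `F (m + 1)` and the products
`c * det (D i (b j))` with `b j` of weight `e j` and `c` of weight `m - ∑ j, (e j + l j)`. -/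
def leading {r : ℕ} (D : Fin r → Derivation k B B) (F : ℕ → Ideal B) (l : Fin r → ℕ) (m : ℕ) :
    Ideal B :=
  F (m + 1) ⊔ Ideal.span {y | ∃ (e : Fin r → ℕ) (b : Fin r → B) (c : B), (∀ j, b j ∈ F (e j)) ∧
    c ∈ F (m - ∑ j, (e j + l j)) ∧ y = c * (Matrix.of fun i j => D i (b j)).det}

/-- The derivations `D i` have independent leading forms with respect to the filtration `F`:

* `D i` raises the weight of every element by `l i ≥ 0`,
* the points where the `D i` are linearly dependent lie in the centre,
* the leading forms of the `D i` are linearly independent at all points of the weighted normal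
  cone outside its vertex, that is, every element `a` of weight `d > 0` has a power `a ^ N` which is,
  up to elements of weight larger than `N * d`, a combination of the determinants
  `det (D i (b j))`. -/
def HasIndependentLeadingForms {r : ℕ} (D : Fin r → Derivation k B B) (F : ℕ → Ideal B) : Prop :=
  ∃ l : Fin r → ℕ, (∀ i d, ∀ a ∈ F d, D i a ∈ F (d + l i)) ∧
    (∀ Q : Ideal B, Q.IsPrime → (∀ b : Fin r → B, (Matrix.of fun i j => D i (b j)).det ∈ Q) →
      F 1 ≤ Q) ∧
    ∀ d, 1 ≤ d → ∀ a ∈ F d, ∃ N : ℕ, a ^ N ∈ leading D F l (N * d)

end

/-- Let `B` be a domain over a field `k` of characteristic `p` and `F` a decreasing multiplicative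
filtration of `B` by ideals, with `F 0 = B` and `F 1 ≠ 0`, such that

* either the weighted blowup of `F` is smooth (`Good`): the extended Rees algebra of `F`, the sum
  of the `F d T ^ d` for `d > 0` and of the `B T ^ d` for `d ≤ 0`, is of finite type and its
  localizations at the nonzero elements `b T ^ d` with `d > 0` are smooth over `k` (here `B` may
  be singular),
* or `B` is smooth and `F` is a regular weighted centre.

Let `D 1, ..., D r` be derivations of `B` over `k` which span a foliation and have independent
leading forms. Let a finite diagonalizable group scheme `Spec k[Λ]` act on `Spec B`, by a grading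
`𝒜` of `B` by a finite abelian group `Λ`, such that the ideals `F d` and the derivations `D i` are
homogeneous (`Λ = 0` is allowed). Let `R` be the ring of the elements of `B` of weight `0` which are
annihilated by all `D i`. Then `Spec R` is a variety which has a resolution of singularities. -/
theorem result (p : ℕ) [Fact p.Prime] (k : Type u) [Field k] [CharP k p] (B : Type u)
    [CommRing B] [IsDomain B] [Algebra k B] (F : ℕ → Ideal B) (hF : IsFilt F) (hne : F 1 ≠ ⊥)
    (hG : Good k hF ∨ (Algebra.Smooth k B ∧ RegularWeightedCentre k F))
    (r : ℕ) (D : Fin r → Derivation k B B) (hfol : SpanFoliation p D)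
    (hind : HasIndependentLeadingForms D F)
    (Λ : Type) [AddCommGroup Λ] [Fintype Λ] [DecidableEq Λ] (𝒜 : Λ → Submodule k B)
    [GradedAlgebra 𝒜] (hhom : ∀ d, (F d).IsHomogeneous 𝒜)
    (hD : ∀ i, ∃ β : Λ, ∀ μ, ∀ b ∈ 𝒜 μ, D i b ∈ 𝒜 (μ + β))
    (R : Subalgebra k B) (hR : ∀ b, b ∈ R ↔ b ∈ 𝒜 0 ∧ ∀ i, D i b = 0) :
    IsVariety (X := Spec (CommRingCat.of R)) (Spec.map (CommRingCat.ofHom (algebraMap k R))) ∧
    ∃ (Y : Scheme.{u}) (π : Y ⟶ Spec (CommRingCat.of R)),
      AlgebraicGeometry.IsIntegral Y ∧ AlgebraicGeometry.IsProper π ∧
      AlgebraicGeometry.Smooth (π ≫ Spec.map (CommRingCat.ofHom (algebraMap k R))) ∧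
      ∃ U : (Spec (CommRingCat.of R)).Opens, Dense (U : Set (Spec (CommRingCat.of R))) ∧
        IsIso (π ∣_ U) := by
  have hp : p.Prime := Fact.out
  have hpk : (p : k) = 0 := CharP.cast_eq_zero k p
  have hG' : Good k hF := by
    rcases hG with h | ⟨h1, h2⟩
    · exact h
    · exact good_of_centre hF h2
  obtain ⟨l, hdiv, hfix, hlead⟩ := hind
  choose β hβ using hD
  refine Pool.Agent.Helper44x.FR.main hp hpk D hfol hF hG' hne hdiv hfix ?_ 𝒜 hhom β hβ R hR
  intro d hd a ha
  obtain ⟨N, hN⟩ := hlead d hd a ha
  refine ⟨N, ?_⟩
  have hle : leading D F l (N * d) ≤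
      Pool.Agent.Helper44x.FR.leadG F (Pool.Agent.Helper44x.FR.detD (fun i => D i) F l) (N * d) := by
    refine sup_le le_sup_left (le_trans (Ideal.span_mono ?_) le_sup_right)
    rintro y ⟨e, b, c, hb, hc, rfl⟩
    exact ⟨∑ j, (e j + l j), _, c, ⟨e, b, hb, rfl, rfl⟩, hc, rfl⟩
  exact hle hN

end Pool.Agent.Results.MP_b525bf_ag.HigherRankFoliations
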