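import Pool.Agent.Helper44x.IL.Main

/-!
MP_b525bf_ag: resolution of the quotients of (possibly singular) affine varieties of
characteristic `p` by arbitrary finite `p`-groups whose leading forms are linearly independent
outside the vertex of a smooth weighted blowup, and by finite groups which have such a normal
subgroup with abelian quotient of order prime to `p`.

The starting result `GroupTowers` needs, for each factor of order `p` of the group, information on
the leading form of its action on the ring of invariants of the preceding subgroup. The theorem
of this file needs only the action of the group on the given variety. It is proved by showing that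
the leading form of a generator of the next factor has no zeros on the ring of invariants
(`Pool.Agent.Helper44x.IL.sstep`):

(1) Let `σ` be an automorphism of order `p` of a domain `S` with `σ f - f = t * θ f`, let `π` be a
homomorphism from `S` to a field with `π t = 0`, and `π (θ x) ≠ 0`. By an explicit formula with
traces there is an invariant `η` with `π η ≠ 0` such that `η * f` is a polynomial in `x` with
invariant coefficients for all `f` (`interp`). So a derivation along `π` which vanishes on the
invariants and at `x` is zero.

(2) This is applied to the rings of invariants in the extended Rees algebra and to the homomorphisms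
to the residue fields of the points of the exceptional divisor of the weighted blowup. The leading
forms define derivations along `π`; by induction a linear combination of them which vanishes on
the invariants of `H i` is a combination of the first `i` of them (`claim`, `exists_ne`).

(3) The fixed points of the factor on the ring of invariants are images of fixed points of elements
of the group (`inertia_lift`).
-/

set_option autoImplicit false

open AlgebraicGeometry CategoryTheory Pool.Agent.H920R2 Pool.Agent.H519R3.RS

universe u

namespace Pool.Agent.Results.MP_b525bf_ag.IndependentGroups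

section

variable {k B : Type u} [Field k] [CommRing B] [Algebra k B]

/-- The ring of invariants of a group of automorphisms. -/
def invariants {G : Type} [Group G] (θ : G →* (B ≃ₐ[k] B)) : Subalgebra k B where
  carrier := {b | ∀ g, θ g b = b}
  mul_mem' := fun {a b} ha hb g => by rw [map_mul, ha g, hb g]
  add_mem' := fun {a b} ha hb g => by rw [map_add, ha g, hb g]
  algebraMap_mem' := fun _ _ => AlgEquiv.commutes _ _

/-- The quotient of `Spec B` by a group of automorphisms. -/
noncomputable def quot {G : Type} [Group G] (θ : G →* (B ≃ₐ[k] B)) : Scheme.{u} :=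
  Spec (CommRingCat.of (invariants θ))

/-- The structure morphism of the quotient. -/
noncomputable def quotStr {G : Type} [Group G] (θ : G →* (B ≃ₐ[k] B)) :
    quot θ ⟶ Spec (CommRingCat.of k) :=
  Spec.map (CommRingCat.ofHom (algebraMap k (invariants θ)))

/-- The elements which are, up to higher order, combinations of the leading forms of the
determinants `det (δ i (b j))`: the ideal generated by `F (m + 1)` and the products
`c * det (δ i (b j))` with `b j` of weight `e j` and `c` of weight `m - ∑ j, (e j + l j)`. -/
def leading {n : ℕ} (δ : Fin n → B → B) (F : ℕ → Ideal B) (l : Fin n → ℕ) (m : ℕ) : Ideal B :=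
  F (m + 1) ⊔ Ideal.span {y | ∃ (e : Fin n → ℕ) (b : Fin n → B) (c : B), (∀ j, b j ∈ F (e j)) ∧
    c ∈ F (m - ∑ j, (e j + l j)) ∧ y = c * (Matrix.of fun i j => δ i (b j)).det}

/-- The `p`-group `P` has independent leading forms with respect to the filtration `F`: there is a
chain `1 = H 0 ⊂ H 1 ⊂ ... ⊂ H n = P` of subgroups, each of them normal of index `p` in the next
one, and there are elements `g i` of `H (i + 1)` outside `H i` such that

* `g i - 1` raises the weight of every element by `l i > 0`,
* the fixed points of all elements `x ≠ 1` of `P` lie in the centre,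
* the leading forms of the `g i - 1` are linearly independent at all points of the weighted normal
  cone outside its vertex, that is, every element `a` of weight `d > 0` has a power `a ^ N` which is,
  up to elements of weight larger than `N * d`, a combination of the determinants
  `det (g i (b j) - b j)`. -/
def HasIndependentLeadingForms (p : ℕ) {G : Type} [Group G] (θ : G →* (B ≃ₐ[k] B))
    (P : Subgroup G) (F : ℕ → Ideal B) : Prop :=
  ∃ (n : ℕ) (H : ℕ → Subgroup G) (g : ℕ → G) (l : ℕ → ℕ), H 0 = ⊥ ∧ H n = P ∧
    (∀ i < n, H i ≤ H (i + 1) ∧ ((H i).subgroupOf (H (i + 1))).Normal ∧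
      (H i).relIndex (H (i + 1)) = p ∧ g i ∈ H (i + 1) ∧ g i ∉ H i) ∧
    (∀ i < n, 0 < l i ∧ ∀ d, ∀ a ∈ F d, θ (g i) a - a ∈ F (d + l i)) ∧
    (∀ x ∈ P, x ≠ 1 → ∀ Q : Ideal B, Q.IsPrime → (∀ a, θ x a - a ∈ Q) → F 1 ≤ Q) ∧
    ∀ d, 1 ≤ d → ∀ a ∈ F d, ∃ N : ℕ,
      a ^ N ∈ leading (fun (i : Fin n) c => θ (g i) c - c) F (fun i => l i) (N * d)

end

/-- Let `B` be a domain over a field `k` of characteristic `p` and `F` a decreasing multiplicative
filtration of `B` by ideals, with `F 0 = B` and `F 1 ≠ 0`, such that

* either the weighted blowup of `F` is smooth (`Good`): the extended Rees algebra of `F`, the sum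
  of the `F d T ^ d` for `d > 0` and of the `B T ^ d` for `d ≤ 0`, is of finite type and its
  localizations at the nonzero elements `b T ^ d` with `d > 0` are smooth over `k` (here `B` may
  be singular),
* or `B` is smooth and `F` is a regular weighted centre.

Let `G` be a finite group of automorphisms of `B` over `k` which preserves the filtration, and let
`P` be a normal `p`-subgroup of `G` with independent leading forms, such that `G / P` is abelian of
order prime to `p`, and `k` contains enough roots of unity for `G / P` (for example, `P = G` is an
arbitrary `p`-group). Then `Spec (B ^ G)` is a variety which has a resolution of singularities. -/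
theorem result (p : ℕ) [Fact p.Prime] (k : Type u) [Field k] [CharP k p] (B : Type u)
    [CommRing B] [IsDomain B] [Algebra k B] (F : ℕ → Ideal B) (hF : IsFilt F) (hne : F 1 ≠ ⊥)
    (hG : Good k hF ∨ (Algebra.Smooth k B ∧ RegularWeightedCentre k F))
    (G : Type) [Group G] [Finite G] (θ : G →* (B ≃ₐ[k] B))
    (hst : ∀ g d, ∀ a ∈ F d, θ g a ∈ F d) (P : Subgroup G) [P.Normal]
    (hP : HasIndependentLeadingForms p θ P F)
    (hab : ∀ g h : G, g * h * g⁻¹ * h⁻¹ ∈ P) (hprime : P.index.Coprime p)
    [HasEnoughRootsOfUnity k (Monoid.exponent (G ⧸ P))] :
    IsVariety (quotStr θ) ∧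
    ∃ (Y : Scheme.{u}) (π : Y ⟶ quot θ),
      AlgebraicGeometry.IsIntegral Y ∧ AlgebraicGeometry.IsProper π ∧
      AlgebraicGeometry.Smooth (π ≫ quotStr θ) ∧
      ∃ U : (quot θ).Opens, Dense (U : Set (quot θ)) ∧ IsIso (π ∣_ U) := by
  have hp : p.Prime := Fact.out
  have hpk : (p : k) = 0 := CharP.cast_eq_zero k p
  have hQ : (P.index : k) ≠ 0 := by
    rw [Ne, CharP.cast_eq_zero_iff k p]
    intro h
    exact (Nat.Prime.coprime_iff_not_dvd hp).1 hprime.symm h
  have hG' : Good k hF := by
    rcases hG with h | ⟨h1, h2⟩
    · exact h
    · exact good_of_centre hF h2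
  obtain ⟨n, H, g, l, h0, hn, hH, hl, hfix, hind⟩ := hP
  have hfl := Pool.Agent.Helper44x.IL.flag_of hp h0 (fun i hi => (hH i hi).1)
    (fun i hi => (hH i hi).2.1) (fun i hi => (hH i hi).2.2.1) (fun i hi => (hH i hi).2.2.2.1)
    (fun i hi => (hH i hi).2.2.2.2)
  have hle : ∀ i ≤ n, H i ≤ P := by
    intro i hi
    rw [← hn]
    induction hi using Nat.decreasingInduction with
    | of_succ i hi ih => exact (hfl.le i hi).trans ih
    | self => exact le_rfl
  obtain ⟨h1, h2⟩ := Pool.Agent.Helper44x.IL.good_iv hF θ hst hfl l (fun i hi => (hl i hi).2)
    hp hpk (fun i hi => (hl i hi).1) hind (fun i hi x hx => hfix x (hle (i + 1) hi hx)) hG' hne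
    n le_rfl
  have heq : Pool.Agent.Helper44x.IL.iv θ (H n) = Pool.Agent.Y177.Dg.ivP θ P := by
    rw [hn]
    rfl
  have h1' : Good k (isFilt_restr hF (Pool.Agent.Y177.Dg.ivP θ P)) := heq ▸ h1
  rw [heq] at h2
  exact Pool.Agent.Y177.Dg.concl_ivP θ P hab hQ hF h1' h2 hst (invariants θ) fun b => Iff.rfl

end Pool.Agent.Results.MP_b525bf_ag.IndependentGroups
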